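import Mathlib

/-! A compact linear order built from the closed countable subsets of a bistationary subset of `ω₁`.

`W` is a well-order.  `X S` is the set of all `x ⊆ W` (as functions to `Bool`), contained in `S`,
which contain each of their limit points that lies below some element of `x`.  It is ordered
lexicographically. -/

set_option autoImplicit false

namespace Pool.Agent.Helper305.Blum

open Set

variable {W : Type} [LinearOrder W] [WellFoundedLT W]

/-- `δ` is a limit of elements of `x`. -/
def Lim (x : W → Bool) (δ : W) : Prop :=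
  (∃ β, β < δ) ∧ ∀ β < δ, ∃ α, β < α ∧ α < δ ∧ x α = true

/-- `x` is a subset of `S` which contains all its limits below elements of `x`. -/
def Good (S : Set W) (x : W → Bool) : Prop :=
  (∀ α, x α = true → α ∈ S) ∧ ∀ δ ε, δ < ε → x ε = true → Lim x δ → x δ = true

/-- the space -/
def X (S : Set W) : Type := {x : Lex (W → Bool) // Good S (ofLex x)}

noncomputable instance (S : Set W) : LinearOrder (X S) :=
  inferInstanceAs (LinearOrder {x : Lex (W → Bool) // Good S (ofLex x)})

variable {S : Set W}

/-- the underlying function -/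
def X.f (x : X S) : W → Bool := ofLex x.1

omit [WellFoundedLT W] in
theorem X.ext' {x y : X S} (h : ∀ α, x.f α = y.f α) : x = y := by
  apply Subtype.ext
  exact ofLex.injective (funext h)

theorem lt_iff {x y : X S} :
    x < y ↔ ∃ α, (∀ β < α, x.f β = y.f β) ∧ x.f α = false ∧ y.f α = true := by
  have h : x < y ↔ ∃ α, (∀ β, β < α → x.f β = y.f β) ∧ x.f α < y.f α := Iff.rfl
  rw [h]
  simp only [Bool.lt_iff]

theorem exists_diff {x y : X S} (h : x ≠ y) :
    ∃ α, (∀ β < α, x.f β = y.f β) ∧ x.f α ≠ y.f α := by
  have hne : {α | x.f α ≠ y.f α}.Nonempty := by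
    by_contra hcon
    rw [not_nonempty_iff_eq_empty] at hcon
    apply h
    apply X.ext'
    intro α
    by_contra h'
    have : α ∈ {α | x.f α ≠ y.f α} := h'
    rw [hcon] at this
    exact this
  refine ⟨wellFounded_lt.min _ hne, fun β hβ => ?_, wellFounded_lt.min_mem _ hne⟩
  by_contra h'
  exact wellFounded_lt.not_lt_min {α | x.f α ≠ y.f α} (x := β) h' hβ

/-- every set has a least upper bound -/
theorem exists_lub (Z : Set (X S)) : ∃ s, IsLUB Z s := by
  classical
  let F : (α : W) → ((β : W) → β < α → Bool) → Bool := fun α ih =>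
    decide (∃ z ∈ Z, (∀ (β : W) (h : β < α), z.f β = ih β h) ∧ z.f α = true)
  let s : W → Bool := wellFounded_lt.fix F
  have hs : ∀ α, s α = true ↔ ∃ z ∈ Z, (∀ β < α, z.f β = s β) ∧ z.f α = true := by
    intro α
    have : s α = F α (fun β _ => s β) := WellFounded.fix_eq _ _ _
    rw [this]
    simp only [F, decide_eq_true_eq]
  have hgood : Good S s := by
    constructor
    · intro α hα
      obtain ⟨z, _, _, h⟩ := (hs α).1 hα
      exact z.2.1 α h
    · intro δ ε hδ hε hl
      obtain ⟨z, _, h1, h2⟩ := (hs ε).1 hε
      have hl' : Lim z.f δ := by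
        refine ⟨hl.1, fun β hβ => ?_⟩
        obtain ⟨α, h3, h4, h5⟩ := hl.2 β hβ
        exact ⟨α, h3, h4, by rw [h1 α (h4.trans hδ)]; exact h5⟩
      rw [← h1 δ hδ]
      exact z.2.2 δ ε hδ h2 hl'
  let s' : X S := ⟨toLex s, hgood⟩
  have hs' : ∀ α, s'.f α = s α := fun α => rfl
  refine ⟨s', ?_, ?_⟩
  · intro z hz
    by_contra hcon
    rw [not_le, lt_iff] at hcon
    obtain ⟨α, h1, h2, h3⟩ := hcon
    have : s α = true := (hs α).2 ⟨z, hz, fun β hβ => (h1 β hβ).symm, h3⟩
    rw [hs', this] at h2
    exact absurd h2 (by simp)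
  · intro u hu
    by_contra hcon
    rw [not_le, lt_iff] at hcon
    obtain ⟨α, h1, h2, h3⟩ := hcon
    obtain ⟨z, hz, h4, h5⟩ := (hs α).1 h3
    have : u < z := lt_iff.2 ⟨α, fun β hβ => (h1 β hβ).trans (h4 β hβ).symm, h2, h5⟩
    exact absurd (hu hz) (not_le.2 this)

/-- `X S` as a complete linear order -/
@[instance_reducible] noncomputable def clo (S : Set W) : CompleteLinearOrder (X S) :=
  let a : CompleteLattice (X S) :=
    { (inferInstance : Lattice (X S)),
      completeLatticeOfSup (X S) (H1 := inferInstance)
        (H2 := ⟨fun Z => Classical.choose (exists_lub Z)⟩)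
        (fun Z => Classical.choose_spec (exists_lub Z)) with }
  { (inferInstance : LinearOrder (X S)), a, LinearOrder.toBiheytingAlgebra (X S) with }

/-- the order topology on `X S` is compact -/
theorem compact (S : Set W) [TopologicalSpace (X S)] [OrderTopology (X S)] :
    CompactSpace (X S) := by
  let _ : CompleteLinearOrder (X S) := clo S
  exact compactSpace_of_completeLinearOrder

end Pool.Agent.Helper305.Blum
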