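import Mathlib
import Pool.Agent.H458R3.LotsB
import Pool.Agent.Helper305_Blum.A

/-! Basic neighbourhoods in `X S`. -/

set_option autoImplicit false
set_option linter.unusedSectionVars false
set_option linter.unusedVariables false

namespace Pool.Agent.Helper305.Blum

open Set Pool.Agent.H458R3.Lots

variable {W : Type} [LinearOrder W] [WellFoundedLT W] {S : Set W}

/-- `S` is unbounded -/
def Unb (S : Set W) : Prop := ∀ b : W, ∃ γ ∈ S, b < γ

/-- no unbounded element: `Sᶜ` is stationary -/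
theorem bdd [Nonempty W] (hS : Stat Sᶜ) (x : X S) : ∃ b, ∀ α, x.f α = true → α ≤ b := by
  by_contra hcon
  push Not at hcon
  choose g hg using hcon
  obtain ⟨c0⟩ := ‹Nonempty W›
  obtain ⟨c, hc, hac, hclos⟩ := hS g c0
  have hl : Lim x.f c := ⟨⟨c0, hac⟩, fun β hβ => ⟨g β, (hg β).2, hclos β hβ, (hg β).1⟩⟩
  exact hc (x.2.1 c (x.2.2 c (g c) (hg c).2 (hg c).1 hl))

/-- the set of all `y` which agree with `a` up to and including `m` -/
def N (a : X S) (m : W) : Set (X S) := {y | ∀ β ≤ m, y.f β = a.f β}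

/-- `m` is the largest element of `a` -/
def IsTop (a : X S) (m : W) : Prop := a.f m = true ∧ ∀ β, m < β → a.f β = false

/-- cut `y` after `m` and add `γ` -/
noncomputable def ext (y : X S) (m γ : W) (hm : y.f m = true) (hmγ : m < γ) (hγ : γ ∈ S) : X S :=
  ⟨toLex fun β => if β ≤ m then y.f β else decide (β = γ), by
    constructor
    · intro α hα
      simp only [ofLex_toLex] at hα
      split_ifs at hα with h
      · exact y.2.1 α hα
      · simp only [decide_eq_true_eq] at hα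
        rw [hα]; exact hγ
    · intro δ ε hδ hε hl
      simp only [ofLex_toLex] at hε hl ⊢
      have key : δ ≤ m → y.f δ = true := by
        intro hδm
        rcases hδm.lt_or_eq with h | h
        · refine y.2.2 δ m h hm ⟨hl.1, fun β hβ => ?_⟩
          obtain ⟨α, h1, h2, h3⟩ := hl.2 β hβ
          beta_reduce at h3
          rw [if_pos (h2.le.trans hδm)] at h3
          exact ⟨α, h1, h2, h3⟩
        · rw [h]; exact hm
      by_cases hδm : δ ≤ m
      · rw [if_pos hδm]
        exact key hδm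
      · exfalso
        push Not at hδm
        have hε' : ¬ ε ≤ m := not_le.2 (hδm.trans hδ)
        rw [if_neg hε', decide_eq_true_eq] at hε
        obtain ⟨α, h1, h2, h3⟩ := hl.2 m hδm
        beta_reduce at h3
        rw [if_neg (not_le.2 h1), decide_eq_true_eq] at h3
        rw [h3, ← hε] at h2
        exact lt_asymm h2 hδ⟩

section ext

variable (y : X S) (m γ : W) (hm : y.f m = true) (hmγ : m < γ) (hγ : γ ∈ S)

omit [WellFoundedLT W] in
theorem ext_f (β : W) : (ext y m γ hm hmγ hγ).f β = if β ≤ m then y.f β else decide (β = γ) := rfl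

theorem ext_le {β : W} (h : β ≤ m) : (ext y m γ hm hmγ hγ).f β = y.f β := by
  rw [ext_f, if_pos h]

theorem ext_mid {β : W} (h : m < β) (h' : β ≠ γ) : (ext y m γ hm hmγ hγ).f β = false := by
  rw [ext_f, if_neg (not_le.2 h)]
  simp [h']

theorem ext_top : (ext y m γ hm hmγ hγ).f γ = true := by
  rw [ext_f, if_neg (not_le.2 hmγ)]
  simp

theorem ext_isTop : IsTop (ext y m γ hm hmγ hγ) γ :=
  ⟨ext_top .., fun _ hβ => ext_mid _ _ _ _ _ _ (hmγ.trans hβ) hβ.ne'⟩

theorem ext_N : N (ext y m γ hm hmγ hγ) γ ⊆ N y m := by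
  intro z hz β hβ
  rw [hz β (hβ.trans hmγ.le), ext_le _ _ _ _ _ _ hβ]

end ext

/-- every nonempty relatively open part of a basic neighbourhood contains a basic neighbourhood -/
theorem exists_N_subset [TopologicalSpace (X S)] [OrderTopology (X S)] (hU : Unb S) {a : X S}
    {m : W} (ha : a.f m = true) {O : Set (X S)} (hO : IsOpen O) {x : X S} (hx : x ∈ N a m)
    (hxO : x ∈ O) :
    ∃ (a' : X S) (m' : W), IsTop a' m' ∧ m < m' ∧ N a' m' ⊆ N a m ∧ N a' m' ⊆ O := by
  have hxm : x.f m = true := by rw [hx m le_rfl]; exact ha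
  by_cases hmax : ∃ m0, IsTop x m0
  · obtain ⟨m0, hm0⟩ := hmax
    have hmm0 : m ≤ m0 := by
      by_contra hcon
      rw [hm0.2 m (not_le.1 hcon)] at hxm
      exact absurd hxm (by simp)
    -- `x` is not the top element
    obtain ⟨γ0, hγ0, hγ0'⟩ := hU m0
    have hlt0 : x < ext x m0 γ0 hm0.1 hγ0' hγ0 := by
      rw [lt_iff]
      refine ⟨γ0, fun β hβ => ?_, hm0.2 _ hγ0', ext_top ..⟩
      by_cases h : β ≤ m0
      · rw [ext_le _ _ _ _ _ _ h]
      · rw [ext_mid _ _ _ _ _ _ (not_le.1 h) hβ.ne, hm0.2 _ (not_le.1 h)]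
    obtain ⟨u, hu, hsub⟩ := exists_Ico_subset_of_mem_nhds (hO.mem_nhds hxO) ⟨_, hlt0⟩
    obtain ⟨α, h1, h2, h3⟩ := lt_iff.1 hu
    obtain ⟨γ, hγ, hγ'⟩ := hU (max α m0)
    have hαγ : α < γ := (le_max_left _ _).trans_lt hγ'
    have hmγ : m0 < γ := (le_max_right _ _).trans_lt hγ'
    refine ⟨ext x m0 γ hm0.1 hmγ hγ, γ, ext_isTop .., hmm0.trans_lt hmγ, ?_, ?_⟩
    · intro y hy β hβ
      rw [ext_N _ _ _ _ _ _ hy β (hβ.trans hmm0), hx β hβ]
    · intro y hy
      apply hsub
      have hagree : ∀ β < γ, x.f β = y.f β := by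
        intro β hβ
        rw [hy β hβ.le]
        by_cases h : β ≤ m0
        · rw [ext_le _ _ _ _ _ _ h]
        · rw [ext_mid _ _ _ _ _ _ (not_le.1 h) hβ.ne, hm0.2 _ (not_le.1 h)]
      constructor
      · refine le_of_lt (lt_iff.2 ⟨γ, hagree, hm0.2 _ hmγ, ?_⟩)
        rw [hy γ le_rfl]
        exact ext_top ..
      · refine lt_iff.2 ⟨α, fun β hβ => ?_, ?_, h3⟩
        · rw [← hagree β (hβ.trans hαγ)]
          exact h1 β hβ
        · rw [← hagree α hαγ]
          exact h2
  · have hnomax : ∀ m1, x.f m1 = true → ∃ m2, m1 < m2 ∧ x.f m2 = true := by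
      intro m1 hm1
      by_contra hcon
      push Not at hcon
      exact hmax ⟨m1, hm1, fun β hβ => by simpa using hcon β hβ⟩
    have hbot : ∃ l, l < x := by
      have hz : Good S (fun _ => false) := ⟨fun _ h => absurd h (by simp), fun _ _ _ h => absurd h (by simp)⟩
      let z : X S := ⟨toLex (fun _ => false), hz⟩
      have hzf : ∀ α, z.f α = false := fun _ => rfl
      have hne : z ≠ x := by
        intro h
        rw [← h, hzf] at hxm
        exact absurd hxm (by simp)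
      obtain ⟨α, h1, h2⟩ := exists_diff hne
      have h3 := hzf α
      refine ⟨_, lt_iff.2 ⟨α, h1, h3, ?_⟩⟩
      rw [h3] at h2
      simpa using h2.symm
    obtain ⟨l, hl, hsub⟩ := exists_Ioc_subset_of_mem_nhds (hO.mem_nhds hxO) hbot
    obtain ⟨α, h1, h2, h3⟩ := lt_iff.1 hl
    -- an element of `x` above `α` and `m`
    obtain ⟨m1, hm1, hαm1, hmm1⟩ : ∃ m1, x.f m1 = true ∧ α ≤ m1 ∧ m ≤ m1 := by
      rcases le_total α m with h | h
      · exact ⟨m, hxm, h, le_rfl⟩
      · exact ⟨α, h3, le_rfl, h⟩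
    obtain ⟨m2, hm12, hm2⟩ := hnomax m1 hm1
    obtain ⟨γ, hγ, hm2γ⟩ := hU m2
    refine ⟨ext x m1 γ hm1 (hm12.trans hm2γ) hγ, γ, ext_isTop .., hmm1.trans_lt (hm12.trans hm2γ),
      ?_, ?_⟩
    · intro y hy β hβ
      rw [ext_N _ _ _ _ _ _ hy β (hβ.trans hmm1), hx β hβ]
    · intro y hy
      apply hsub
      have hy1 : ∀ β ≤ m1, y.f β = x.f β := ext_N _ _ _ _ _ _ hy
      have hy2 : ∀ β, m1 < β → β < γ → y.f β = false := by
        intro β hβ hβγ
        rw [hy β hβγ.le]
        exact ext_mid _ _ _ _ _ _ hβ hβγ.ne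
      constructor
      · refine lt_iff.2 ⟨α, fun β hβ => ?_, h2, ?_⟩
        · rw [hy1 β (hβ.le.trans hαm1)]
          exact h1 β hβ
        · rw [hy1 α hαm1]
          exact h3
      · have hne : y ≠ x := by
          intro h
          have := hy2 m2 hm12 hm2γ
          rw [h, hm2] at this
          exact absurd this (by simp)
        obtain ⟨β, h4, h5⟩ := exists_diff hne
        have h6 : m1 < β := by
          by_contra hcon
          exact h5 (hy1 β (not_lt.1 hcon))
        have h7 : β ≤ m2 := by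
          by_contra hcon
          have := h4 m2 (not_le.1 hcon)
          rw [hm2, hy2 m2 hm12 hm2γ] at this
          exact absurd this (by simp)
        have h8 := hy2 β h6 (h7.trans_lt hm2γ)
        refine (lt_iff.2 ⟨β, h4, h8, ?_⟩).le
        rw [h8] at h5
        simpa using h5.symm

/-- every basic neighbourhood contains a nonempty open set -/
theorem exists_open_subset [TopologicalSpace (X S)] [OrderTopology (X S)] (hU : Unb S) {a : X S}
    {m : W} (ha : IsTop a m) : ∃ O : Set (X S), IsOpen O ∧ O.Nonempty ∧ O ⊆ N a m := by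
  obtain ⟨γ, hγ, hmγ⟩ := hU m
  obtain ⟨γ', hγ', hγγ'⟩ := hU γ
  refine ⟨Ioo a (ext a m γ ha.1 hmγ hγ), isOpen_Ioo,
    ⟨ext a m γ' ha.1 (hmγ.trans hγγ') hγ', ?_, ?_⟩, ?_⟩
  · refine lt_iff.2 ⟨γ', fun β hβ => ?_, ha.2 _ (hmγ.trans hγγ'), ext_top ..⟩
    by_cases h : β ≤ m
    · rw [ext_le _ _ _ _ _ _ h]
    · rw [ext_mid _ _ _ _ _ _ (not_le.1 h) hβ.ne, ha.2 _ (not_le.1 h)]
  · refine lt_iff.2 ⟨γ, fun β hβ => ?_, ext_mid _ _ _ _ _ _ hmγ hγγ'.ne, ext_top ..⟩
    by_cases h : β ≤ m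
    · rw [ext_le _ _ _ _ _ _ h, ext_le _ _ _ _ _ _ h]
    · rw [ext_mid _ _ _ _ _ _ (not_le.1 h) hβ.ne,
        ext_mid _ _ _ _ _ _ (not_le.1 h) (hβ.trans hγγ').ne]
  · rintro y ⟨h1, h2⟩
    obtain ⟨α, h3, h4, h5⟩ := lt_iff.1 h1
    have hα : m < α := by
      by_contra hcon
      push Not at hcon
      refine lt_asymm h2 (lt_iff.2 ⟨α, fun β hβ => ?_, ?_, h5⟩)
      · rw [ext_le _ _ _ _ _ _ (hβ.le.trans hcon)]
        exact h3 β hβ
      · rw [ext_le _ _ _ _ _ _ hcon]
        exact h4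
    intro β hβ
    exact (h3 β (hβ.trans_lt hα)).symm

end Pool.Agent.Helper305.Blum
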