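import Mathlib
import Pool.Agent.Helper305_Blum.B

/-! Countably many open sets are decided by a basic neighbourhood; the failure of the Blumberg
property. -/

set_option autoImplicit false
set_option linter.unusedSectionVars false

namespace Pool.Agent.Helper305.Blum

open Set Cardinal Pool.Agent.H458R3.Lots

variable {W : Type} [LinearOrder W] [WellFoundedLT W] {S : Set W}

/-- conditions -/
def Cd (S : Set W) : Type := {p : X S × W // IsTop p.1 p.2}

/-- the basic neighbourhood of a condition -/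
def Cd.N (p : Cd S) : Set (X S) := Blum.N p.1.1 p.1.2

theorem step [TopologicalSpace (X S)] [OrderTopology (X S)] (hU : Unb S) (p : Cd S)
    {O : Set (X S)} (hO : IsOpen O) (b : W) :
    ∃ q : Cd S, p.1.2 < q.1.2 ∧ b < q.1.2 ∧ q.N ⊆ p.N ∧ (q.N ⊆ O ∨ Disjoint q.N O) := by
  by_cases h : (p.N ∩ O).Nonempty
  · obtain ⟨x, hx, hxO⟩ := h
    obtain ⟨a', m', h1, h2, h3, h4⟩ := exists_N_subset hU p.2.1 hO hx hxO
    obtain ⟨γ, hγ, hγ'⟩ := hU (max b m')
    have hm : m' < γ := (le_max_right _ _).trans_lt hγ'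
    have h5 := ext_N a' m' γ h1.1 hm hγ
    exact ⟨⟨(ext a' m' γ h1.1 hm hγ, γ), ext_isTop a' m' γ h1.1 hm hγ⟩, h2.trans hm,
      (le_max_left _ _).trans_lt hγ', h5.trans h3, Or.inl (h5.trans h4)⟩
  · obtain ⟨γ, hγ, hγ'⟩ := hU (max b p.1.2)
    have hm : p.1.2 < γ := (le_max_right _ _).trans_lt hγ'
    have h5 := ext_N p.1.1 p.1.2 γ p.2.1 hm hγ
    refine ⟨⟨(ext p.1.1 p.1.2 γ p.2.1 hm hγ, γ), ext_isTop _ _ γ p.2.1 hm hγ⟩, hm,
      (le_max_left _ _).trans_lt hγ', h5, Or.inr ?_⟩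
    rw [Set.disjoint_left]
    intro y hy hyO
    exact h ⟨y, h5 hy, hyO⟩

/-- distributivity -/
theorem decide_all (hb : ∀ C : Set W, C.Countable → ∃ b, ∀ c ∈ C, c < b)
    (h1 : ∀ w : W, (Iio w).Countable) (hS : Stat S) [TopologicalSpace (X S)]
    [OrderTopology (X S)] (O : ℕ → Set (X S)) (hO : ∀ n, IsOpen (O n)) (p0 : Cd S) :
    ∃ q : Cd S, q.N ⊆ p0.N ∧ ∀ n, q.N ⊆ O n ∨ Disjoint q.N (O n) := by
  classical
  have hU : Unb S := fun b => by
    obtain ⟨c, hc, hbc, _⟩ := hS id b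
    exact ⟨c, hc, hbc⟩
  choose E hE1 hE2 hE3 hE4 using fun (p : Cd S) (n : ℕ) (b : W) => step hU p (hO n) b
  let res : List (ℕ × W) → Cd S := fun L => L.foldr (fun e p => E p e.1 e.2) p0
  have hres : ∀ e L, res (e :: L) = E (res L) e.1 e.2 := fun e L => rfl
  have hg : ∀ ξ : W, ∃ g, ∀ L : List (ℕ × W), (∀ e ∈ L, e.2 ≤ ξ) → (res L).1.2 < g := by
    intro ξ
    have hIic : (Iic ξ).Countable := by
      rw [← Iio_insert]
      exact (h1 ξ).insert _
    have hc : {e : ℕ × W | e.2 ≤ ξ}.Countable := by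
      have : {e : ℕ × W | e.2 ≤ ξ} = (univ : Set ℕ) ×ˢ Iic ξ := by
        ext e; simp
      rw [this]
      exact (countable_univ).prod hIic
    have hL : {L : List (ℕ × W) | ∀ e ∈ L, e ∈ {e : ℕ × W | e.2 ≤ ξ}}.Countable := by
      rw [← range_list_map_coe]
      have : Countable {e : ℕ × W | e.2 ≤ ξ} := hc
      exact countable_range _
    obtain ⟨b, hb'⟩ := hb _ (hL.image fun L => (res L).1.2)
    exact ⟨b, fun L hL' => hb' _ ⟨L, hL', rfl⟩⟩
  choose g hg using hg
  obtain ⟨c, hcS, hac, hclos⟩ := hS g p0.1.2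
  obtain ⟨e, he⟩ := (h1 c).exists_eq_range ⟨_, hac⟩
  have hec : ∀ k, e k < c := fun k => by
    have : e k ∈ Iio c := by rw [he]; exact ⟨k, rfl⟩
    exact this
  let Lk : ℕ → List (ℕ × W) := fun k => Nat.rec [] (fun k L => (k, e k) :: L) k
  have hLk : ∀ k, Lk (k + 1) = (k, e k) :: Lk k := fun k => rfl
  let p : ℕ → Cd S := fun k => res (Lk k)
  have hp0 : p 0 = p0 := rfl
  have hp : ∀ k, p (k + 1) = E (p k) k (e k) := fun k => rfl
  have hLb : ∀ k, ∃ b < c, ∀ x ∈ Lk k, x.2 ≤ b := by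
    intro k
    induction k with
    | zero => exact ⟨_, hac, fun x hx => absurd hx (by simp [Lk])⟩
    | succ k ih =>
      obtain ⟨b, hbc, hb'⟩ := ih
      refine ⟨max b (e k), max_lt hbc (hec k), fun x hx => ?_⟩
      rw [hLk, List.mem_cons] at hx
      rcases hx with rfl | hx
      · exact le_max_right _ _
      · exact (hb' x hx).trans (le_max_left _ _)
  have hmc : ∀ k, (p k).1.2 < c := by
    intro k
    obtain ⟨b, hbc, hb'⟩ := hLb k
    exact (hg b _ hb').trans (hclos b hbc)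
  have hcof : ∀ b < c, ∃ k, b < (p k).1.2 := by
    intro b hbc
    have : b ∈ range e := by rw [← he]; exact hbc
    obtain ⟨k, rfl⟩ := this
    exact ⟨k + 1, by rw [hp]; exact hE2 _ _ _⟩
  have hNs : ∀ k, (p (k + 1)).N ⊆ (p k).N := fun k => by rw [hp]; exact hE3 _ _ _
  have hN : ∀ j k, j ≤ k → (p k).N ⊆ (p j).N := by
    intro j k hjk
    induction k, hjk using Nat.le_induction with
    | base => exact subset_rfl
    | succ k _ ih => exact (hNs k).trans ih
  have hself : ∀ k, (p k).1.1 ∈ (p k).N := fun k β _ => rfl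
  have hagree : ∀ j k, ∀ β, β ≤ (p j).1.2 → β ≤ (p k).1.2 →
      (p j).1.1.f β = (p k).1.1.f β := by
    intro j k β hj hk
    rcases le_total j k with h | h
    · exact (hN j k h (hself k) β hj).symm
    · exact hN k j h (hself j) β hk
  let qf : W → Bool := fun β => decide (β = c ∨ ∃ k, β ≤ (p k).1.2 ∧ (p k).1.1.f β = true)
  have hqf : ∀ β, qf β = true ↔ (β = c ∨ ∃ k, β ≤ (p k).1.2 ∧ (p k).1.1.f β = true) := by
    intro β
    simp only [qf, decide_eq_true_eq]
  have hq : ∀ k, ∀ β ≤ (p k).1.2, qf β = (p k).1.1.f β := by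
    intro k β hβ
    rw [Bool.eq_iff_iff, hqf]
    constructor
    · rintro (h | ⟨j, hj, hj'⟩)
      · rw [h] at hβ
        exact absurd (hmc k) (not_lt.2 hβ)
      · rw [hagree k j β hβ hj]
        exact hj'
    · intro h
      exact Or.inr ⟨k, hβ, h⟩
  have hgood : Good S qf := by
    constructor
    · intro α hα
      rcases (hqf α).1 hα with h | ⟨k, _, hk⟩
      · rw [h]; exact hcS
      · exact (p k).1.1.2.1 α hk
    · intro δ ε hδ hε hl
      have hεc : ε ≤ c := by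
        rcases (hqf ε).1 hε with h | ⟨k, hk, _⟩
        · exact h.le
        · exact (hk.trans_lt (hmc k)).le
      obtain ⟨k, hk⟩ := hcof δ (hδ.trans_le hεc)
      rw [hq k δ hk.le]
      refine (p k).1.1.2.2 δ _ hk (p k).2.1 ⟨hl.1, fun β hβ => ?_⟩
      obtain ⟨α, h2, h3, h4⟩ := hl.2 β hβ
      rw [hq k α (h3.trans hk).le] at h4
      exact ⟨α, h2, h3, h4⟩
  have htop : IsTop (⟨toLex qf, hgood⟩ : X S) c := by
    refine ⟨(hqf c).2 (Or.inl rfl), fun β hβ => ?_⟩
    have : ¬ qf β = true := by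
      rw [hqf]
      rintro (h | ⟨k, hk, _⟩)
      · exact hβ.ne' h
      · exact absurd (hβ.trans_le hk) (not_lt.2 (hmc k).le)
    exact Bool.eq_false_iff.2 this
  let q : Cd S := ⟨(⟨toLex qf, hgood⟩, c), htop⟩
  have hqN : ∀ k, q.N ⊆ (p k).N := by
    intro k y hy β hβ
    have h2 : y.f β = qf β := hy β (hβ.trans (hmc k).le)
    rw [h2, hq k β hβ]
  refine ⟨q, hqN 0, fun n => ?_⟩
  have h3 := hqN (n + 1)
  rw [hp] at h3
  rcases hE4 (p n) n (e n) with h | h
  · exact Or.inl (h3.trans h)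
  · exact Or.inr (Disjoint.mono_left h3 h)

/-- every nonempty open set contains the neighbourhood of a condition -/
theorem exists_cd [Nonempty W] [TopologicalSpace (X S)] [OrderTopology (X S)] (hU : Unb S) {V : Set (X S)}
    (hV : IsOpen V) (hne : V.Nonempty) : ∃ p : Cd S, p.N ⊆ V := by
  obtain ⟨x, hx⟩ := hne
  by_cases hxm : ∃ m, x.f m = true
  · obtain ⟨m, hm⟩ := hxm
    obtain ⟨a', m', h1, _, _, h4⟩ := exists_N_subset hU hm hV (x := x) (fun _ _ => rfl) hx
    exact ⟨⟨(a', m'), h1⟩, h4⟩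
  · push Not at hxm
    -- `x` is the least element
    have hx0 : ∀ m, x.f m = false := fun m => by simpa using hxm m
    have hsing : ∀ γ ∈ S, Good S (fun β => decide (β = γ)) := by
      intro γ hγ
      constructor
      · intro α hα
        rw [decide_eq_true_eq] at hα
        rw [hα]; exact hγ
      · intro δ ε hδ hε hl
        rw [decide_eq_true_eq] at hε
        obtain ⟨β, hβ⟩ := hl.1
        obtain ⟨α, _, h2, h3⟩ := hl.2 β hβ
        beta_reduce at h3
        rw [decide_eq_true_eq] at h3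
        rw [h3, ← hε] at h2
        exact absurd h2 (lt_asymm hδ)
    obtain ⟨w⟩ := ‹Nonempty W›
    obtain ⟨γ0, hγ0, _⟩ := hU w
    let y0 : X S := ⟨toLex (fun β => decide (β = γ0)), hsing γ0 hγ0⟩
    have hy0 : ∀ β, y0.f β = decide (β = γ0) := fun _ => rfl
    have hlt : x < y0 := lt_iff.2 ⟨γ0, fun β hβ => by rw [hx0, hy0]; simp [hβ.ne], hx0 _, by
      rw [hy0]; simp⟩
    obtain ⟨u, hu, hsub⟩ := exists_Ico_subset_of_mem_nhds (hV.mem_nhds hx) ⟨_, hlt⟩
    obtain ⟨α, h2, h3, h4⟩ := lt_iff.1 hu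
    obtain ⟨γ, hγ, hαγ⟩ := hU α
    let y : X S := ⟨toLex (fun β => decide (β = γ)), hsing γ hγ⟩
    have hy : ∀ β, y.f β = decide (β = γ) := fun _ => rfl
    have htop : IsTop y γ := ⟨by rw [hy]; simp, fun β hβ => by rw [hy]; simp [hβ.ne']⟩
    refine ⟨⟨(y, γ), htop⟩, fun z hz => hsub ⟨?_, ?_⟩⟩
    · refine (lt_iff.2 ⟨γ, fun β hβ => ?_, hx0 _, ?_⟩).le
      · rw [hz β hβ.le, hx0]
        exact ((hy β).trans (by simp [hβ.ne])).symm
      · rw [hz γ le_rfl]
        exact htop.1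
    · refine lt_iff.2 ⟨α, fun β hβ => ?_, ?_, h4⟩
      · rw [hz β (hβ.trans hαγ).le, ← h2 β hβ, hx0]
        exact (hy β).trans (by simp [(hβ.trans hαγ).ne])
      · rw [hz α hαγ.le]
        exact (hy α).trans (by simp [hαγ.ne])
end Pool.Agent.Helper305.Blum
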