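import Mathlib
import Pool.Agent.Helper305_Blum.C

/-! The failure of the Blumberg property. -/

set_option autoImplicit false
set_option linter.unusedSectionVars false

namespace Pool.Agent.Helper305.Blum

open Set Cardinal Topology Pool.Agent.H458R3.Lots

variable {W : Type} [LinearOrder W] [WellFoundedLT W] {S : Set W}

/-- a function which is continuous on a dense set is constant on a dense subset of an open set -/
theorem const_of_continuousOn [Nonempty W] (hb : ∀ C : Set W, C.Countable → ∃ b, ∀ c ∈ C, c < b)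
    (h1 : ∀ w : W, (Iio w).Countable) (hS : Stat S) [TopologicalSpace (X S)]
    [OrderTopology (X S)] (f : X S → ℝ) (D : Set (X S)) (hf : ContinuousOn f D)
    (V : Set (X S)) (hV : IsOpen V) (hne : V.Nonempty) :
    ∃ q : Cd S, q.N ⊆ V ∧ ∀ x ∈ D ∩ q.N, ∀ y ∈ D ∩ q.N, f x = f y := by
  have hU : Unb S := fun b => by
    obtain ⟨c, hc, hbc, _⟩ := hS id b
    exact ⟨c, hc, hbc⟩
  obtain ⟨p0, hp0⟩ := exists_cd hU hV hne
  have hBc := TopologicalSpace.countable_countableBasis ℝ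
  have hBne : (TopologicalSpace.countableBasis ℝ).Nonempty := by
    obtain ⟨v, hv, _⟩ := (TopologicalSpace.isBasis_countableBasis ℝ).exists_subset_of_mem_open
      (a := (0 : ℝ)) (u := univ) (mem_univ _) isOpen_univ
    exact ⟨v, hv⟩
  obtain ⟨B, hB⟩ := hBc.exists_eq_range hBne
  have hBo : ∀ n, IsOpen (B n) := fun n =>
    TopologicalSpace.isOpen_of_mem_countableBasis (by rw [hB]; exact ⟨n, rfl⟩)
  choose O hO hO' using fun n => (continuousOn_iff'.1 hf) (B n) (hBo n)
  obtain ⟨q, hq0, hq⟩ := decide_all hb h1 hS O hO p0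
  refine ⟨q, hq0.trans hp0, ?_⟩
  rintro x ⟨hxD, hxq⟩ y ⟨hyD, hyq⟩
  by_contra hxy
  have hbas := TopologicalSpace.isBasis_countableBasis ℝ
  obtain ⟨U, hUB, hxU, hUsub⟩ := hbas.exists_subset_of_mem_open (a := f x) (u := {f y}ᶜ)
    (by simpa using hxy) isOpen_compl_singleton
  rw [hB] at hUB
  obtain ⟨n, rfl⟩ := hUB
  have hxO : x ∈ O n := by
    have : x ∈ f ⁻¹' B n ∩ D := ⟨hxU, hxD⟩
    rw [hO'] at this
    exact this.1
  rcases hq n with h | h
  · have : y ∈ O n ∩ D := ⟨h hyq, hyD⟩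
    rw [← hO'] at this
    exact hUsub this.1 rfl
  · exact Set.disjoint_left.1 h hxq hxO

/-- a dense set has at least two points in every basic neighbourhood -/
theorem two_points [TopologicalSpace (X S)] [OrderTopology (X S)] (hU : Unb S) {D : Set (X S)}
    (hD : Dense D) (q : Cd S) : ∃ x ∈ D ∩ q.N, ∃ y ∈ D ∩ q.N, x ≠ y := by
  obtain ⟨γ1, hγ1, h1⟩ := hU q.1.2
  obtain ⟨γ2, hγ2, h2⟩ := hU γ1
  have key : ∀ γ (hγ : γ ∈ S) (h : q.1.2 < γ), ∃ x ∈ D ∩ q.N,
      x ∈ N (ext q.1.1 q.1.2 γ q.2.1 h hγ) γ := by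
    intro γ hγ h
    obtain ⟨O, hO, hne, hsub⟩ := exists_open_subset hU (ext_isTop q.1.1 q.1.2 γ q.2.1 h hγ)
    obtain ⟨x, hx, hxD⟩ := hD.inter_open_nonempty O hO hne
    exact ⟨x, ⟨hxD, ext_N _ _ _ _ _ _ (hsub hx)⟩, hsub hx⟩
  obtain ⟨x, hx, hx'⟩ := key γ1 hγ1 h1
  obtain ⟨y, hy, hy'⟩ := key γ2 hγ2 (h1.trans h2)
  refine ⟨x, hx, y, hy, ?_⟩
  rintro rfl
  have h3 := hx' γ1 le_rfl
  have h4 := hy' γ1 h2.le
  rw [ext_top] at h3
  rw [ext_mid _ _ _ _ _ _ h1 h2.ne, h3] at h4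
  exact absurd h4 (by simp)

/-- the space has at most continuum many points -/
theorem mk_X_le [Nonempty W] (h1 : ∀ w : W, (Iio w).Countable) (hW : #W = ℵ₁)
    (hS : Stat Sᶜ) : #(X S) ≤ 𝔠 := by
  classical
  have hcount : ∀ x : X S, {α | x.f α = true}.Countable := by
    intro x
    obtain ⟨b, hb⟩ := bdd hS x
    have hIic : (Iic b).Countable := by
      rw [← Iio_insert]
      exact (h1 b).insert _
    exact hIic.mono fun α hα => hb α hα
  have hr : ∀ x : X S, ∃ h : ℕ → Option W, range h = insert none (some '' {α | x.f α = true}) := by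
    intro x
    obtain ⟨h, hh⟩ := (((hcount x).image some).insert none).exists_eq_range ⟨none, mem_insert _ _⟩
    exact ⟨h, hh.symm⟩
  choose h hh using hr
  have hinj : Function.Injective h := by
    intro x y hxy
    apply X.ext'
    intro α
    have h2 := hh x
    rw [hxy, hh y] at h2
    have h3 : (some α ∈ insert none (some '' {α | y.f α = true})) ↔
        (some α ∈ insert none (some '' {α | x.f α = true})) := by rw [h2]
    simp only [mem_insert_iff, reduceCtorEq, mem_image, mem_ofPred_eq, Option.some.injEq,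
      exists_eq_right, false_or] at h3
    rw [Bool.eq_iff_iff]
    exact h3.symm
  refine (mk_le_of_injective hinj).trans ?_
  have hopt : #(Option W) ≤ 𝔠 := by
    rw [mk_option, hW]
    refine (add_le_add aleph_one_le_continuum (one_lt_aleph0.le.trans aleph0_le_continuum)).trans ?_
    simp
  calc #(ℕ → Option W) = #(Option W) ^ ℵ₀ := by simp
    _ ≤ 𝔠 ^ ℵ₀ := power_le_power_right hopt
    _ = 𝔠 := continuum_power_aleph0

/-- A compact linearly ordered space on which every real function which is continuous on a dense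
set is constant on a dense subset of a nonempty open set. -/
theorem main : ∃ (X : Type) (_ : LinearOrder X) (_ : TopologicalSpace X),
    OrderTopology X ∧ CompactSpace X ∧ Nonempty X ∧ #X ≤ 𝔠 ∧
    (∀ D V : Set X, Dense D → IsOpen V → V.Nonempty → (D ∩ V).Nontrivial) ∧
    ∀ (f : X → ℝ) (D : Set X), Dense D → ContinuousOn f D → ∀ V : Set X, IsOpen V → V.Nonempty →
      ∃ U ⊆ V, IsOpen U ∧ U.Nonempty ∧ ∃ r : ℝ, ∀ x ∈ D ∩ U, f x = r := by
  classical
  let W : Type := (ℵ₁ : Cardinal.{0}).ord.ToType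
  have hWcard : #W = ℵ₁ := mk_ord_toType _
  have h1 : ∀ w : W, (Iio w).Countable := by
    intro w
    have h2 : #(Iio w) < ℵ₁ := mk_Iio_toType_ord_lt w
    have h3 : #(Iio w) ≤ ℵ₀ := Order.lt_succ_iff.1 (h2.trans_eq succ_aleph0.symm)
    exact Cardinal.mk_le_aleph0_iff.1 h3
  have hb : ∀ C : Set W, C.Countable → ∃ b, ∀ c ∈ C, c < b := by
    intro C hC
    have hreg : (ℵ₁ : Cardinal.{0}).IsRegular := isRegular_aleph_one
    by_contra hcon
    push Not at hcon
    have hcof : (ℵ₁ : Cardinal.{0}) ≤ #C := by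
      have h3 : IsCofinal C := fun b => by
        obtain ⟨c, hc, hbc⟩ := hcon b
        exact ⟨c, hc, hbc⟩
      have h4 := Order.cof_le h3
      rw [Ordinal.cof_toType, hreg.cof_ord] at h4
      exact h4
    have h5 : #C ≤ ℵ₀ := Cardinal.mk_le_aleph0_iff.2 hC
    exact absurd (hcof.trans h5) (not_le.2 aleph0_lt_aleph_one)
  have hne : Nonempty W := by
    rw [← mk_ne_zero_iff, hWcard]
    exact (aleph0_pos.trans aleph0_lt_aleph_one).ne'
  obtain ⟨T, hT, hdisj⟩ := exists_stat hb h1 hWcard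
  obtain ⟨i, j, hij⟩ : ∃ i j : W, i ≠ j := by
    obtain ⟨i⟩ := hne
    obtain ⟨j, hj⟩ := hb {i} (countable_singleton i)
    exact ⟨i, j, (hj i rfl).ne⟩
  let S : Set W := T i
  have hS : Stat S := hT i
  have hSc : Stat Sᶜ := by
    intro g a
    obtain ⟨c, hc, h2, h3⟩ := hT j g a
    exact ⟨c, fun h4 => Set.disjoint_left.1 (hdisj i j hij) h4 hc, h2, h3⟩
  have hU : Unb S := fun b => by
    obtain ⟨c, hc, hbc, _⟩ := hS id b
    exact ⟨c, hc, hbc⟩
  let _ : TopologicalSpace (Blum.X S) := Preorder.topology (Blum.X S)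
  have hOT : OrderTopology (Blum.X S) := ⟨rfl⟩
  have hX : Nonempty (Blum.X S) :=
    ⟨⟨toLex (fun _ => false), fun _ h => absurd h (by simp), fun _ _ _ h => absurd h (by simp)⟩⟩
  refine ⟨Blum.X S, inferInstance, inferInstance, hOT, compact S, hX, mk_X_le h1 hWcard hSc,
    ?_, ?_⟩
  · intro D V hD hV hne'
    obtain ⟨p, hp⟩ := exists_cd hU hV hne'
    obtain ⟨x, hx, y, hy, hxy⟩ := two_points hU hD p
    exact ⟨x, ⟨hx.1, hp hx.2⟩, y, ⟨hy.1, hp hy.2⟩, hxy⟩
  · intro f D hD hf V hV hne'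
    obtain ⟨q, hq, hc⟩ := const_of_continuousOn hb h1 hS f D hf V hV hne'
    obtain ⟨U, hU1, hU2, hU3⟩ := exists_open_subset hU q.2
    obtain ⟨x0, hx0, hx0D⟩ := hD.inter_open_nonempty U hU1 hU2
    refine ⟨U, hU3.trans hq, hU1, hU2, f x0, fun x hx => ?_⟩
    exact hc x ⟨hx.1, hU3 hx.2⟩ x0 ⟨hx0D, hU3 hx0⟩

end Pool.Agent.Helper305.Blum
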